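import Pool.Agent.Helper45.AM.GoalsA
import Pool.Agent.Helper45.AM.GoalsC
import Pool.Agent.Helper45.AM.Basic
import Pool.Agent.Helper15.AM.GoalsG

/-! Packet AM-C8: boundedness (B) from the key induction. -/

set_option autoImplicit false

open LaurentPolynomial Pool.Agent.Helper15.RA Pool.Agent.Helper45.AM

noncomputable section

namespace Pool.Agent.Helper46.AM

theorem h_c_8 (gA : Pool.Agent.Helper15.AM.G_PA) (gC : Pool.Agent.Helper15.AM.G_PC)
    (aB : Pool.Agent.Helper45.AM.A_B) (aS : Pool.Agent.Helper45.AM.A_S)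
    (b5 : Pool.Agent.Helper45.AM.B_5) : Pool.Agent.Helper45.AM.C_8 := by
  intro S W H _ _ _ X hSB
  obtain ⟨-, -, -, -, hmono, ⟨N0, hN0⟩, -, hAdm⟩ := b5 S W H X
  obtain ⟨-, -, -, -, hdeg, -⟩ := aB S W H X.toBase
  obtain ⟨hsup, -, -, -, -, -, hiff, -⟩ := aS S W H X.toBase X.K
  obtain ⟨-, hdec, hlen⟩ := gA S W X.M X.cs X.K
  obtain ⟨-, -, -, hdec', hlen', -⟩ := gC S W X.M X.cs X.K
  obtain ⟨N1, hN1⟩ := X.pgK.bdd
  -- the ideal vanishes
  have hidl : ∀ n, X.Idl N0 n = ⊥ := by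
    intro n
    unfold AC.Idl
    rw [Submodule.span_eq_bot]
    rintro Z ⟨x, g, y, h1, h2, -, -⟩
    exact absurd (hmono _ _ _ h2 (hAdm x g y h1).2.2) (hN0 g)
  -- the coordinates of `T_x c_g T_y`
  have hB : ∀ x g y, X.Adm x g y → ∀ w, DegLE (N0 : ℤ) (X.D.t.repr (X.B x g y) w) := by
    intro x g y h w
    obtain ⟨l, h1, h2, -⟩ := hSB (X.nn x g y + 1) N0 x g y h (Nat.lt_succ_self _)
    rw [hidl, Submodule.mem_bot, sub_eq_zero] at h2
    rw [h2]
    refine (h1 w).1.mono ?_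
    have := X.eps_nonneg N0 x g y
    omega
  refine ⟨N1 + N0, ?_⟩
  intro w w' z
  obtain ⟨x, k₁, hk₁, hx, rfl⟩ := hdec w
  obtain ⟨k₂, hk₂, y, hy, rfl⟩ := hdec' w'
  have e1 : X.D.t (x * k₁) = X.D.t x * X.D.t k₁ := (X.D.mul _ _ (hlen x hx k₁ hk₁)).symm
  have e2 : X.D.t (k₂ * y) = X.D.t k₂ * X.D.t y := (X.D.mul _ _ (hlen' y hy k₂ hk₂)).symm
  set Z : H := X.D.t k₁ * X.D.t k₂ with hZ
  have hZd : ∀ k, DegLE (N1 : ℤ) (X.b.repr Z k) :=
    (hdeg N1 Z).1 fun u => hN1 k₁ hk₁ k₂ hk₂ u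
  have hZs : ∀ k, X.b.repr Z k ≠ 0 → k ∈ par X.cs X.K := by
    refine (hiff Z).1 fun u hu => ?_
    have h1 := hsup k₁ hk₁ k₂ u hu
    have h2 := mul_mem h1 hk₂
    simpa using h2
  have e3 : (X.b.repr Z).sum (fun k p => p • X.D.c k) = Z := by
    have h1 := X.b.linearCombination_repr Z
    rw [Finsupp.linearCombination_apply] at h1
    have h2 : (X.b.repr Z).sum (fun k p => p • X.D.c k) =
        (X.b.repr Z).sum (fun k p => p • X.b k) := by
      simp only [X.hb]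
    rw [h2, h1]
  have e4 : X.D.t (x * k₁) * X.D.t (k₂ * y) =
      (X.b.repr Z).sum (fun k p => p • X.B x k y) := by
    rw [e1, e2]
    have h1 : X.D.t x * X.D.t k₁ * (X.D.t k₂ * X.D.t y) = X.D.t x * Z * X.D.t y := by
      rw [hZ]
      noncomm_ring
    rw [h1]
    conv_lhs => rw [← e3]
    rw [Finsupp.sum, Finsupp.sum, Finset.mul_sum, Finset.sum_mul]
    refine Finset.sum_congr rfl fun k _ => ?_
    rw [mul_smul_comm, smul_mul_assoc]
    rfl
  rw [e4, Finsupp.sum, map_sum, Finsupp.finsetSum_apply]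
  refine DegLE.sum fun k hk => ?_
  rw [map_smul, Finsupp.smul_apply, smul_eq_mul]
  have hk' := hZs k (Finsupp.mem_support_iff.1 hk)
  have h := (hZd k).mul (hB x k y (Or.inr ⟨hx, hk', hy⟩) z)
  exact_mod_cast h

end Pool.Agent.Helper46.AM
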